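import Mathlib

/-!
The Stone-Čech compactification of the natural numbers is a compact Hausdorff space `X` that is not
perfectly normal and for which the rings `T'(X)` and `T''(X)` coincide. More generally the two rings
coincide for every completely regular space in which disjoint families of nonempty open sets are
countable.
-/

set_option autoImplicit false

open Set Filter Topology

namespace Pool.Agent.Results.MP_14365a_gt.StoneCech

/-- The functions that are continuous on a dense open set. -/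
def T' (X : Type) [TopologicalSpace X] : Set (X → ℝ) :=
  {f | ∃ U : Set X, IsOpen U ∧ Dense U ∧ ContinuousOn f U}

/-- The functions that are continuous on a dense cozero set. -/
def T'' (X : Type) [TopologicalSpace X] : Set (X → ℝ) :=
  {f | ∃ h : X → ℝ, Continuous h ∧ Dense {x | h x ≠ 0} ∧ ContinuousOn f {x | h x ≠ 0}}

/-- Every closed set is a zero set. -/
def PerfectlyNormal (X : Type) [TopologicalSpace X] : Prop :=
  ∀ C : Set X, IsClosed C → ∃ h : X → ℝ, Continuous h ∧ C = {x | h x = 0}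

/-- Families of pairwise disjoint nonempty open sets are countable. -/
def Ccc (X : Type) [TopologicalSpace X] : Prop :=
  ∀ 𝒰 : Set (Set X), (∀ U ∈ 𝒰, IsOpen U ∧ U.Nonempty) → 𝒰.PairwiseDisjoint id → 𝒰.Countable

theorem T''_subset_T' (X : Type) [TopologicalSpace X] : T'' X ⊆ T' X := by
  rintro f ⟨h, hh, hd, hf⟩
  exact ⟨_, isOpen_ne_fun hh continuous_const, hd, hf⟩

/-- In a completely regular ccc space every dense open set contains a dense cozero set. -/
theorem exists_cozero {X : Type} [TopologicalSpace X] [CompletelyRegularSpace X] (hX : Ccc X)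
    {U : Set X} (hU : IsOpen U) (hd : Dense U) :
    ∃ h : X → ℝ, Continuous h ∧ Dense {x | h x ≠ 0} ∧ {x | h x ≠ 0} ⊆ U := by
  -- a maximal disjoint family of nonempty cozero sets inside `U`
  let 𝒞 : Set (Set X) := {V | V.Nonempty ∧ V ⊆ U ∧ ∃ h : X → ℝ, Continuous h ∧ V = {x | h x ≠ 0}}
  obtain ⟨M, hM⟩ : ∃ M, Maximal (fun M : Set (Set X) => M ⊆ 𝒞 ∧ M.PairwiseDisjoint id) M := by
    refine zorn_subset _ ?_
    intro c hc hchain
    refine ⟨⋃₀ c, ⟨sUnion_subset fun s hs => (hc hs).1, ?_⟩, fun s hs => subset_sUnion_of_mem hs⟩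
    exact (pairwiseDisjoint_sUnion hchain.directedOn).2 fun s hs => (hc hs).2
  have hMC : M.Countable := by
    refine hX M (fun V hV => ?_) hM.prop.2
    obtain ⟨h1, -, h, hh, h3⟩ := hM.prop.1 hV
    exact ⟨by rw [h3]; exact isOpen_ne_fun hh continuous_const, h1⟩
  have hdense : Dense (⋃₀ M) := by
    rw [dense_iff_inter_open]
    intro W hW hWne
    by_contra hcon
    rw [not_nonempty_iff_eq_empty] at hcon
    obtain ⟨x, hxW, hxU⟩ := dense_iff_inter_open.1 hd W hW hWne
    obtain ⟨g, hg, hgx, hg1⟩ := CompletelyRegularSpace.completely_regular x (W ∩ U)ᶜ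
      (hW.inter hU).isClosed_compl (by simp [hxW, hxU])
    have hV : {y | 1 - (g y : ℝ) ≠ 0} ⊆ W ∩ U := by
      intro y hy
      by_contra hcon'
      have h1 : g y = 1 := hg1 hcon'
      apply hy
      rw [h1]
      simp
    have hxV : x ∈ {y | 1 - (g y : ℝ) ≠ 0} := by
      show 1 - (g x : ℝ) ≠ 0
      rw [hgx]
      simp
    have hmem : {y | 1 - (g y : ℝ) ≠ 0} ∈ 𝒞 :=
      ⟨⟨x, hxV⟩, hV.trans inter_subset_right, fun y => 1 - (g y : ℝ),
        continuous_const.sub (continuous_subtype_val.comp hg), rfl⟩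
    have hdisj : ∀ V ∈ M, Disjoint {y | 1 - (g y : ℝ) ≠ 0} V := by
      intro V hVM
      rw [Set.disjoint_left]
      intro y hy hyV
      have : y ∈ W ∩ ⋃₀ M := ⟨(hV hy).1, V, hVM, hyV⟩
      rw [hcon] at this
      exact this
    have h2 := hM.le_of_ge (y := insert {y | 1 - (g y : ℝ) ≠ 0} M)
      ⟨insert_subset hmem hM.prop.1, hM.prop.2.insert fun V hVM _ => hdisj V hVM⟩
      (subset_insert _ _)
    have h3 := hdisj _ (h2 (mem_insert _ _))
    exact Set.disjoint_left.1 h3 hxV hxV
  rcases M.eq_empty_or_nonempty with hMe | hMne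
  · refine ⟨fun _ => 0, continuous_const, ?_, by simp⟩
    rw [hMe, sUnion_empty] at hdense
    simpa using hdense
  obtain ⟨V, hV⟩ := hMC.exists_eq_range hMne
  have hVM : ∀ n, ∃ h : X → ℝ, Continuous h ∧ V n = {x | h x ≠ 0} := by
    intro n
    obtain ⟨-, -, h, hh, h3⟩ := hM.prop.1 (show V n ∈ M by rw [hV]; exact mem_range_self n)
    exact ⟨h, hh, h3⟩
  choose h hh hVh using hVM
  have hbd : ∀ n x, ‖(1 / 2 : ℝ) ^ n * min |h n x| 1‖ ≤ (1 / 2 : ℝ) ^ n := by
    intro n x
    rw [norm_mul, norm_pow, Real.norm_eq_abs (min _ _), abs_of_nonneg (by positivity)]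
    calc ‖(1 / 2 : ℝ)‖ ^ n * min |h n x| 1 ≤ ‖(1 / 2 : ℝ)‖ ^ n * 1 := by
          gcongr
          exact min_le_right _ _
      _ = (1 / 2 : ℝ) ^ n := by rw [mul_one]; norm_num
  have hsum : Summable fun n : ℕ => (1 / 2 : ℝ) ^ n := summable_geometric_two
  have hpos : ∀ x, (∑' n, (1 / 2 : ℝ) ^ n * min |h n x| 1) ≠ 0 ↔ ∃ n, h n x ≠ 0 := by
    intro x
    have hs : Summable fun n => (1 / 2 : ℝ) ^ n * min |h n x| 1 :=
      Summable.of_norm_bounded hsum fun n => hbd n x
    have hnn : ∀ n, 0 ≤ (1 / 2 : ℝ) ^ n * min |h n x| 1 := fun n => by positivity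
    constructor
    · intro h1
      by_contra hcon
      push Not at hcon
      apply h1
      simp [hcon]
    · rintro ⟨n, hn⟩
      have h2 : 0 < (1 / 2 : ℝ) ^ n * min |h n x| 1 :=
        mul_pos (by positivity) (lt_min (abs_pos.2 hn) one_pos)
      exact (hs.tsum_pos hnn n h2).ne'
  have hset : {x | (∑' n, (1 / 2 : ℝ) ^ n * min |h n x| 1) ≠ 0} = ⋃₀ M := by
    ext x
    rw [mem_ofPred_eq, hpos, hV, sUnion_range, mem_iUnion]
    exact exists_congr fun n => by rw [hVh]; rfl
  refine ⟨fun x => ∑' n, (1 / 2 : ℝ) ^ n * min |h n x| 1, ?_, ?_, ?_⟩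
  · exact continuous_tsum (fun n => continuous_const.mul ((hh n).abs.min continuous_const)) hsum hbd
  · rw [hset]
    exact hdense
  · rw [hset]
    exact sUnion_subset fun W hW => (hM.prop.1 hW).2.1

theorem T'_eq_T'' {X : Type} [TopologicalSpace X] [CompletelyRegularSpace X] (hX : Ccc X) :
    T' X = T'' X := by
  refine Subset.antisymm ?_ (T''_subset_T' X)
  rintro f ⟨U, hU, hd, hf⟩
  obtain ⟨h, hh, hdh, hhU⟩ := exists_cozero hX hU hd
  exact ⟨h, hh, hdh, hf.mono hhU⟩

/-! ### The Stone-Čech compactification of the natural numbers -/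

theorem ccc_ultrafilter : Ccc (Ultrafilter ℕ) := by
  intro 𝒰 h𝒰 hdisj
  have : TopologicalSpace.SeparableSpace (Ultrafilter ℕ) :=
    ⟨range pure, countable_range _, denseRange_pure⟩
  exact hdisj.countable_of_isOpen (fun U hU => (h𝒰 U hU).1) fun U hU => (h𝒰 U hU).2

theorem not_perfectlyNormal : ¬ PerfectlyNormal (Ultrafilter ℕ) := by
  intro hPN
  set p : Ultrafilter ℕ := hyperfilter ℕ with hp
  obtain ⟨h, hh, hhp⟩ := hPN {p} isClosed_singleton
  have hp0 : h p = 0 := by
    have : p ∈ {x | h x = 0} := by rw [← hhp]; rfl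
    exact this
  have hlim : ∀ q : Ultrafilter ℕ, Tendsto (fun n => h (pure n)) q (𝓝 (h q)) := fun q =>
    (hh.tendsto q).comp (Ultrafilter.tendsto_pure_self q)
  have hfreq : ∀ k : ℕ, ∃ᶠ n in atTop, |h (pure n)| < 1 / ((k : ℝ) + 1) := by
    intro k
    have h1 : Tendsto (fun n => |h (pure n)|) p (𝓝 |h p|) := (hlim p).abs
    rw [hp0, abs_zero] at h1
    have h2 : ∀ᶠ n in (p : Filter ℕ), |h (pure n)| < 1 / ((k : ℝ) + 1) :=
      h1.eventually_lt_const (by positivity)
    rw [← Nat.cofinite_eq_atTop]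
    exact h2.frequently.filter_mono (hyperfilter_le_cofinite)
  obtain ⟨φ, hφ, hφk⟩ := extraction_forall_of_frequently hfreq
  have hzero : ∀ ψ : ℕ → ℕ, StrictMono ψ → h ((hyperfilter ℕ).map (φ ∘ ψ)) = 0 := by
    intro ψ hψ
    have h1 := hlim ((hyperfilter ℕ).map (φ ∘ ψ))
    rw [Ultrafilter.coe_map, tendsto_map'_iff] at h1
    have h2 : Tendsto (fun n : ℕ => 1 / ((n : ℝ) + 1)) (hyperfilter ℕ) (𝓝 0) :=
      (tendsto_one_div_add_atTop_nhds_zero_nat).mono_left
        (by rw [← Nat.cofinite_eq_atTop]; exact hyperfilter_le_cofinite)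
    have h3 : Tendsto ((fun n => h (pure n)) ∘ (φ ∘ ψ)) (hyperfilter ℕ) (𝓝 0) := by
      refine squeeze_zero_norm (fun n => ?_) h2
      have h4 := hφk (ψ n)
      have h5 : (n : ℝ) ≤ ψ n := by exact_mod_cast hψ.le_apply
      show ‖h (pure (φ (ψ n)))‖ ≤ _
      rw [Real.norm_eq_abs]
      refine h4.le.trans ?_
      gcongr
    exact tendsto_nhds_unique h1 h3
  have hq1 : (hyperfilter ℕ).map (φ ∘ fun n => 2 * n) = p := by
    have : (hyperfilter ℕ).map (φ ∘ fun n => 2 * n) ∈ {x | h x = 0} :=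
      hzero _ fun a b hab => by show 2 * a < 2 * b; omega
    rw [← hhp] at this
    exact this
  have hq2 : (hyperfilter ℕ).map (φ ∘ fun n => 2 * n + 1) = p := by
    have : (hyperfilter ℕ).map (φ ∘ fun n => 2 * n + 1) ∈ {x | h x = 0} :=
      hzero _ fun a b hab => by show 2 * a + 1 < 2 * b + 1; omega
    rw [← hhp] at this
    exact this
  have hr1 : range (φ ∘ fun n => 2 * n) ∈ p := by
    rw [← hq1]
    exact Filter.range_mem_map
  have hr2 : range (φ ∘ fun n => 2 * n + 1) ∈ p := by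
    rw [← hq2]
    exact Filter.range_mem_map
  obtain ⟨_, ⟨a, rfl⟩, ⟨b, hb⟩⟩ := p.nonempty_of_mem (inter_mem hr1 hr2)
  have h6 := hφ.injective hb
  have h7 : 2 * b + 1 = 2 * a := h6
  omega

/-- (1) `T'(X) = T''(X)` for every completely regular space `X` in which disjoint families of
nonempty open sets are countable. (2) There is a compact Hausdorff space `X` (the Stone-Čech
compactification of the natural numbers) that is not perfectly normal and satisfies
`T'(X) = T''(X)`. -/
theorem result :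
    (∀ (X : Type) [TopologicalSpace X] [CompletelyRegularSpace X], Ccc X → T' X = T'' X) ∧
    ∃ (X : Type) (_ : TopologicalSpace X), CompactSpace X ∧ T2Space X ∧ T' X = T'' X ∧
      ¬ PerfectlyNormal X :=
  ⟨fun _ _ _ hX => T'_eq_T'' hX, Ultrafilter ℕ, inferInstance, inferInstance, inferInstance,
    T'_eq_T'' ccc_ultrafilter, not_perfectlyNormal⟩

end Pool.Agent.Results.MP_14365a_gt.StoneCech
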